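import Pool.Agent.H703R3.MBBody

/-!
# Inner billiards in tables of revolution preserve the angular momentum
-/

set_option autoImplicit false

open Set Filter Topology
open scoped RealInnerProductSpace ContDiff

namespace Pool.Agent.Run7.h189.MB

open Pool.Agent.H703R3.MB

variable {n : ℕ}

/-! ## the table -/

/-- the function `‖x‖² + x_k⁴` -/
noncomputable def fi (k : Fin n) (x : Euc n) : ℝ := ‖x‖ ^ 2 + (x k) ^ 4

/-- its gradient -/
noncomputable def gi (k : Fin n) (x : Euc n) : Euc n :=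
  (2 : ℝ) • x + (4 * (x k) ^ 3) • EuclideanSpace.single k (1 : ℝ)

theorem gi_inner (k : Fin n) (x w : Euc n) : ⟪gi k x, w⟫ = 2 * ⟪x, w⟫ + 4 * (x k) ^ 3 * w k := by
  unfold gi
  rw [inner_add_left, real_inner_smul_left, real_inner_smul_left, EuclideanSpace.inner_single_left]
  simp

theorem gi_apply {k j : Fin n} (h : j ≠ k) (x : Euc n) : gi k x j = 2 * x j := by
  unfold gi
  simp [h]

theorem goodi (k : Fin n) : Good (fi k) (gi k) where
  cd := by
    unfold fi
    have h1 : ContDiff ℝ ∞ fun x : Euc n => ‖x‖ ^ 2 := contDiff_norm_sq ℝ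
    have h2 : ContDiff ℝ ∞ fun x : Euc n => (x k) ^ 4 := by fun_prop
    exact h1.add h2
  line := by
    intro x w
    refine ⟨‖w‖ ^ 2 + 6 * (x k) ^ 2 * (w k) ^ 2, 4 * x k * (w k) ^ 3, (w k) ^ 4, ?_, ?_, ?_⟩
    · have : 0 ≤ 6 * (x k) ^ 2 * (w k) ^ 2 := by positivity
      linarith
    · have : 0 ≤ (w k) ^ 2 * (2 * (x k) ^ 2 + (2 * x k + w k) ^ 2) := by positivity
      nlinarith
    · intro s
      unfold fi
      rw [gi_inner]
      have h1 : ‖x + s • w‖ ^ 2 = ‖x‖ ^ 2 + 2 * s * ⟪x, w⟫ + s ^ 2 * ‖w‖ ^ 2 := by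
        rw [norm_add_sq_real, real_inner_smul_right, norm_smul, mul_pow, Real.norm_eq_abs, sq_abs]
        ring
      rw [h1]
      simp only [PiLp.add_apply, PiLp.smul_apply, smul_eq_mul]
      ring
  lower := by
    intro x
    unfold fi
    have : 0 ≤ (x k) ^ 4 := by positivity
    linarith
  zero := by simp [fi]
  pos := by
    intro x hx
    rw [gi_inner, real_inner_self_eq_norm_sq]
    have h0 : 0 < ‖x‖ := by
      refine norm_pos_iff.2 ?_
      rintro rfl
      simp [fi] at hx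
    have : 0 ≤ 4 * (x k) ^ 3 * x k := by
      have h : 4 * (x k) ^ 3 * x k = 4 * (x k) ^ 4 := by ring
      rw [h]
      positivity
    positivity

theorem not_elli {j k : Fin n} (hjk : j ≠ k) : ¬ IsEllipsoid (Body (fi k)) := by
  refine (goodi k).not_isEllipsoid (p := EuclideanSpace.single j (1 : ℝ))
    (q := EuclideanSpace.single k (1 : ℝ)) ?_ ?_ ?_
  · intro x
    unfold fi
    rw [norm_neg]
    simp only [PiLp.neg_apply]
    rw [neg_pow, show (-1 : ℝ) ^ 4 = 1 by norm_num, one_mul]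
  · simp
  · intro a b
    unfold fi
    rw [norm_add_sq_real, norm_smul, norm_smul, real_inner_smul_left,
      real_inner_smul_right, EuclideanSpace.inner_single_left]
    simp [hjk, hjk.symm]

/-! ## exit points -/

section General

variable {f : Euc n → ℝ} {g : Euc n → Euc n}

theorem exit_eq (h : Good f g) {l : Euc n × Euc n} {x : Euc n} {t : ℝ} (hx : x = l.1 + t • l.2)
    (h1 : f x = 1) (h2 : 0 < ⟪g x, l.2⟫) : exitPoint (Body f) l = x := by
  have hg : IsGreatest {t : ℝ | l.1 + t • l.2 ∈ Body f} t := by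
    constructor
    · show f (l.1 + t • l.2) ≤ 1
      rw [← hx, h1]
    · intro s hs
      have hs' : f (l.1 + s • l.2) ≤ 1 := hs
      by_contra hcon
      push Not at hcon
      have h3 := h.ge x (l.1 + s • l.2)
      have e : l.1 + s • l.2 - x = (s - t) • l.2 := by
        rw [hx, sub_smul]
        abel
      rw [e, real_inner_smul_right, h1] at h3
      have h4 : 0 < (s - t) * ⟪g x, l.2⟫ := mul_pos (by linarith) h2
      have h5 : 0 ≤ ‖(s - t) • l.2‖ ^ 2 := by positivity
      linarith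
  unfold exitPoint
  rw [hg.csSup_eq, hx]

theorem lines_exit (h : Good f g) {l : Euc n × Euc n} (hl : l ∈ lines (Body f)) :
    ∃ (x : Euc n) (t : ℝ), x = l.1 + t • l.2 ∧ f x = 1 ∧ 0 < ⟪g x, l.2⟫ := by
  obtain ⟨hv, hpv, t0, ht0⟩ := hl
  rw [h.interior_body] at ht0
  have ht0' : f (l.1 + t0 • l.2) < 1 := ht0
  have hc : Continuous fun t : ℝ => f (l.1 + t • l.2) := h.continuous.comp (by fun_prop)
  have hclosed : IsClosed {t : ℝ | f (l.1 + t • l.2) ≤ 1} := isClosed_le hc continuous_const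
  have hsub : {t : ℝ | f (l.1 + t • l.2) ≤ 1} ⊆ Icc (-1) 1 := by
    intro t ht
    have ht' : f (l.1 + t • l.2) ≤ 1 := ht
    have h1 := h.lower (l.1 + t • l.2)
    rw [norm_add_sq_real, real_inner_smul_right, hpv, norm_smul, hv, mul_one, Real.norm_eq_abs,
      sq_abs] at h1
    have h2 : t ^ 2 ≤ 1 := by nlinarith [sq_nonneg ‖l.1‖]
    exact abs_le.1 ((sq_le_one_iff_abs_le_one t).1 h2)
  have hcomp : IsCompact {t : ℝ | f (l.1 + t • l.2) ≤ 1} := isCompact_Icc.of_isClosed_subset hclosed hsub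
  obtain ⟨t1, ht1⟩ := hcomp.exists_isGreatest ⟨t0, ht0'.le⟩
  have hf1 : f (l.1 + t1 • l.2) ≤ 1 := ht1.1
  have hf : f (l.1 + t1 • l.2) = 1 := by
    refine le_antisymm hf1 ?_
    by_contra hcon
    push Not at hcon
    have h3 : ∀ᶠ t : ℝ in 𝓝 t1, f (l.1 + t • l.2) < 1 := (hc.tendsto t1).eventually (gt_mem_nhds hcon)
    obtain ⟨δ, hδ, hs⟩ := Metric.eventually_nhds_iff.1 h3
    have h4 := hs (y := t1 + δ / 2) (by
      rw [Real.dist_eq, add_sub_cancel_left, abs_of_pos (by linarith)]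
      linarith)
    have h5 := ht1.2 (show t1 + δ / 2 ∈ {t : ℝ | f (l.1 + t • l.2) ≤ 1} from h4.le)
    linarith
  refine ⟨l.1 + t1 • l.2, t1, rfl, hf, ?_⟩
  have h6 := h.ge (l.1 + t1 • l.2) (l.1 + t0 • l.2)
  have e : l.1 + t0 • l.2 - (l.1 + t1 • l.2) = (t0 - t1) • l.2 := by
    rw [sub_smul]
    abel
  rw [e, real_inner_smul_right, hf] at h6
  have h7 : 0 ≤ ‖(t0 - t1) • l.2‖ ^ 2 := by positivity
  have h8 : (t0 - t1) * ⟪g (l.1 + t1 • l.2), l.2⟫ < 0 := by linarith
  have h9 : t0 ≤ t1 := ht1.2 ht0'.le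
  by_contra hcon
  push Not at hcon
  have : 0 ≤ (t0 - t1) * ⟪g (l.1 + t1 • l.2), l.2⟫ := mul_nonneg_of_nonpos_of_nonpos (by linarith) hcon
  linarith

theorem lineThrough_mem (h : Good f g) {x v : Euc n} (hv : ‖v‖ = 1) (h1 : f x = 1)
    (h2 : ⟪g x, v⟫ ≠ 0) : lineThrough x v ∈ lines (Body f) := by
  refine ⟨hv, ?_, ?_⟩
  · show ⟪x - ⟪x, v⟫ • v, v⟫ = 0
    rw [inner_sub_left, real_inner_smul_left, real_inner_self_eq_norm_sq, hv]
    ring
  · have key : ∀ σ : ℝ, ⟪g x, σ • v⟫ < 0 →
        ∃ t : ℝ, (lineThrough x v).1 + t • (lineThrough x v).2 ∈ interior (Body f) := by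
      intro σ hσ
      obtain ⟨s, _, hs⟩ := h.exists_lt hσ
      refine ⟨⟪x, v⟫ + s * σ, ?_⟩
      rw [h.interior_body]
      show f (x - ⟪x, v⟫ • v + (⟪x, v⟫ + s * σ) • v) < 1
      have e : x - ⟪x, v⟫ • v + (⟪x, v⟫ + s * σ) • v = x + s • σ • v := by
        rw [add_smul, smul_smul]
        abel
      rw [e, ← h1]
      exact hs
    rcases lt_or_gt_of_ne h2 with h3 | h3
    · exact key 1 (by rwa [one_smul])
    · refine key (-1) ?_
      rw [real_inner_smul_right]
      linarith

theorem lineThrough_eq {l : Euc n × Euc n} (h1 : ‖l.2‖ = 1) (h2 : ⟪l.1, l.2⟫ = 0) {x : Euc n} {t : ℝ}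
    (hx : x = l.1 + t • l.2) : lineThrough x l.2 = l := by
  have h3 : ⟪x, l.2⟫ = t := by
    rw [hx, inner_add_left, real_inner_smul_left, real_inner_self_eq_norm_sq, h1, h2]
    ring
  unfold lineThrough
  rw [h3, hx, add_sub_cancel_right]

/-- the reflection in the tangent plane at `x` -/
noncomputable def refl (g : Euc n → Euc n) (x v : Euc n) : Euc n :=
  v - (2 * ⟪v, ‖g x‖⁻¹ • g x⟫) • (‖g x‖⁻¹ • g x)

theorem refl_inner {x : Euc n} (hx : g x ≠ 0) (v : Euc n) : ⟪g x, refl g x v⟫ = - ⟪g x, v⟫ := by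
  have h0 : ‖g x‖ ≠ 0 := norm_ne_zero_iff.2 hx
  unfold refl
  rw [inner_sub_right, real_inner_smul_right, real_inner_smul_right, real_inner_smul_right,
    real_inner_self_eq_norm_sq, real_inner_comm v (g x)]
  field_simp
  ring

theorem refl_refl {x : Euc n} (hx : g x ≠ 0) (v : Euc n) : refl g x (refl g x v) = v := by
  have h1 := refl_inner hx v
  have h2 : ⟪refl g x v, ‖g x‖⁻¹ • g x⟫ = - ⟪v, ‖g x‖⁻¹ • g x⟫ := by
    rw [real_inner_smul_right, real_inner_smul_right, real_inner_comm (g x) (refl g x v), h1,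
      real_inner_comm (g x) v]
    ring
  have h3 : refl g x (refl g x v) = refl g x v - (2 * ⟪refl g x v, ‖g x‖⁻¹ • g x⟫) • (‖g x‖⁻¹ • g x) := rfl
  rw [h3, h2]
  unfold refl
  rw [mul_neg, neg_smul]
  abel

theorem refl_norm {x : Euc n} (hx : g x ≠ 0) {v : Euc n} (hv : ‖v‖ = 1) : ‖refl g x v‖ = 1 := by
  have h0 : ‖g x‖ ≠ 0 := norm_ne_zero_iff.2 hx
  have hν : ‖‖g x‖⁻¹ • g x‖ = 1 := by
    rw [norm_smul, norm_inv, norm_norm, inv_mul_cancel₀ h0]
  have h1 : ‖refl g x v‖ ^ 2 = 1 := by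
    unfold refl
    rw [norm_sub_sq_real, norm_smul, real_inner_smul_right, hν, hv, mul_one, Real.norm_eq_abs, sq_abs]
    ring
  have h2 : 0 ≤ ‖refl g x v‖ := norm_nonneg _
  nlinarith

theorem billiardMap_eq (h : Good f g) {l : Euc n × Euc n} {x : Euc n} {t : ℝ} (hx : x = l.1 + t • l.2)
    (h1 : f x = 1) (h2 : 0 < ⟪g x, l.2⟫) :
    billiardMap (Body f) l = lineThrough x (refl g x l.2) := by
  unfold billiardMap refl
  rw [exit_eq h hx h1 h2, h.outerNormal_eq h1]

end General

/-! ## the angular momentum -/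

/-- the angular momentum in the plane of the coordinates `i`, `j` -/
noncomputable def ell (i j : Fin n) (l : Euc n × Euc n) : ℝ := l.1 i * l.2 j - l.1 j * l.2 i

theorem ell_lineThrough (i j : Fin n) (x v : Euc n) : ell i j (lineThrough x v) = x i * v j - x j * v i := by
  unfold ell lineThrough
  simp only [PiLp.sub_apply, PiLp.smul_apply, smul_eq_mul]
  ring

theorem ell_refl {i j k : Fin n} (hi : i ≠ k) (hj : j ≠ k) (x v : Euc n) :
    ell i j (lineThrough x (refl (gi k) x v)) = ell i j (lineThrough x v) := by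
  rw [ell_lineThrough, ell_lineThrough]
  unfold refl
  simp only [PiLp.sub_apply, PiLp.smul_apply, smul_eq_mul, gi_apply hi, gi_apply hj]
  ring

/-- the invariant hypersurface -/
def Si (i j k : Fin n) (c : ℝ) : Set (Euc n × Euc n) := lines (Body (fi k)) ∩ {l | ell i j l = c}

theorem contDiff_ell (i j : Fin n) : ContDiff ℝ ∞ (ell (n := n) i j) := by
  unfold ell
  fun_prop

theorem isInvariant {i j k : Fin n} (hij : i ≠ j) (hi : i ≠ k) (hj : j ≠ k) {c : ℝ} (hc0 : 0 < c) (hc1 : c < 1) :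
    IsInvariantHypersurface (Body (fi k)) (Si i j k c) where
  nonempty := by
    refine ⟨(EuclideanSpace.single i c, EuclideanSpace.single j (1 : ℝ)), ⟨?_, ?_, 0, ?_⟩, ?_⟩
    · simp
    · rw [EuclideanSpace.inner_single_left]
      simp [hij]
    · rw [(goodi k).interior_body]
      show fi k _ < 1
      unfold fi
      simp [hi.symm]
      rw [abs_of_pos hc0]
      exact hc1
    · show ell i j _ = c
      unfold ell
      simp [hij, hij.symm]
  subset := fun l hl => hl.1
  closed := ⟨_, isClosed_eq (contDiff_ell i j).continuous continuous_const, rfl⟩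
  smooth := by
    intro l hl
    refine ⟨fun l => ell i j l - c, (contDiff_ell i j).sub contDiff_const, ?_, (l.1, 0), ?_, ?_⟩
    · refine Eventually.of_forall fun l' hl' => ?_
      constructor
      · intro h
        have h2 : ell i j l' = c := h.2
        show ell i j l' - c = 0
        rw [h2, sub_self]
      · intro h
        have h2 : ell i j l' - c = 0 := h
        exact ⟨hl', by show ell i j l' = c; linarith⟩
    · have h1 : ⟪l.1, l.2⟫ = 0 := hl.1.2.1
      refine ⟨?_, ?_⟩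
      · simp
      · simp [h1]
    · intro h0
      have hd : HasFDerivAt (fun l => ell i j l - c) (fderiv ℝ (fun l => ell i j l - c) l) l :=
        (((contDiff_ell i j).sub contDiff_const).differentiable (by simp)).differentiableAt.hasFDerivAt
      have hlin : HasDerivAt (fun s : ℝ => l + s • ((l.1, 0) : Euc n × Euc n)) ((l.1, 0) : Euc n × Euc n) 0 := by
        simpa using ((hasDerivAt_id (0 : ℝ)).smul_const ((l.1, 0) : Euc n × Euc n)).const_add l
      have hc : HasDerivAt (fun s : ℝ => ell i j (l + s • ((l.1, 0) : Euc n × Euc n)) - c)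
          (fderiv ℝ (fun l => ell i j l - c) l (l.1, 0)) 0 :=
        HasFDerivAt.comp_hasDerivAt (x := (0 : ℝ)) (f := fun s : ℝ => l + s • ((l.1, 0) : Euc n × Euc n))
          (l := fun l => ell i j l - c) (l' := fderiv ℝ (fun l => ell i j l - c) l)
          (by simpa using hd) hlin
      rw [h0] at hc
      have hl2 : ell i j l = c := hl.2
      have e : (fun s : ℝ => ell i j (l + s • ((l.1, 0) : Euc n × Euc n)) - c) = fun s =>
          0 + s * c + s ^ 2 * 0 + s ^ 3 * 0 + s ^ 4 * 0 := by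
        ext s
        have e2 : ell i j (l + s • ((l.1, 0) : Euc n × Euc n)) = (1 + s) * ell i j l := by
          unfold ell
          simp only [Prod.fst_add, Prod.snd_add, Prod.smul_fst, Prod.smul_snd, smul_zero, add_zero,
            PiLp.add_apply, PiLp.smul_apply, smul_eq_mul]
          ring
        rw [e2, hl2]
        ring
      rw [e] at hc
      have h8 := hc.unique (poly_deriv 0 c 0 0 0 0)
      simp only [mul_zero, zero_mul, add_zero] at h8
      exact hc0.ne h8
  invariant := by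
    have h := goodi k
    apply Subset.antisymm
    · rintro _ ⟨l, hl, rfl⟩
      obtain ⟨x, t, hx, h1, h2⟩ := lines_exit h hl.1
      have hg0 := h.g_ne_zero h1
      rw [billiardMap_eq h hx h1 h2]
      refine ⟨lineThrough_mem h (refl_norm hg0 hl.1.1) h1 ?_, ?_⟩
      · rw [refl_inner hg0]
        linarith
      · show ell i j _ = c
        rw [ell_refl hi hj, lineThrough_eq hl.1.1 hl.1.2.1 hx]
        exact hl.2
    · intro l' hl'
      have hrev : ((l'.1, -l'.2) : Euc n × Euc n) ∈ lines (Body (fi k)) := by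
        obtain ⟨⟨a1, a2, t, a3⟩, _⟩ := hl'
        refine ⟨?_, ?_, -t, ?_⟩
        · show ‖-l'.2‖ = 1
          rw [norm_neg]
          exact a1
        · show ⟪l'.1, -l'.2⟫ = 0
          rw [inner_neg_right, a2, neg_zero]
        · show l'.1 + (-t) • (-l'.2) ∈ _
          rw [smul_neg, neg_smul, neg_neg]
          exact a3
      obtain ⟨x, t, hx, h1, h2⟩ := lines_exit h hrev
      have hg0 := h.g_ne_zero h1
      have h2' : 0 < ⟪gi k x, -l'.2⟫ := h2
      rw [inner_neg_right] at h2'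
      have hx' : x = l'.1 + (-t) • l'.2 := by
        rw [hx]
        show l'.1 + t • (-l'.2) = _
        rw [smul_neg, neg_smul]
      have hl'eq : lineThrough x l'.2 = l' := lineThrough_eq hl'.1.1 hl'.1.2.1 hx'
      set v := refl (gi k) x l'.2 with hv
      have hv1 : ‖v‖ = 1 := refl_norm hg0 hl'.1.1
      have hgv : 0 < ⟪gi k x, v⟫ := by
        rw [hv, refl_inner hg0]
        exact h2'
      refine ⟨lineThrough x v, ⟨lineThrough_mem h hv1 h1 hgv.ne', ?_⟩, ?_⟩
      · show ell i j _ = c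
        rw [hv, ell_refl hi hj, hl'eq]
        exact hl'.2
      · have hx2 : x = (lineThrough x v).1 + ⟪x, v⟫ • (lineThrough x v).2 := by
          unfold lineThrough
          simp
        rw [billiardMap_eq h hx2 h1 hgv]
        show lineThrough x (refl (gi k) x v) = l'
        rw [hv, refl_refl hg0, hl'eq]

/-- Q1 -/
theorem q1 (n : ℕ) (hn : 3 ≤ n) : ∃ Ω : Set (Euc n), IsTable Ω ∧ ¬ IsEllipsoid Ω ∧
    ∃ S : ℝ → Set (Euc n × Euc n), (∀ c : ℝ, 0 < c → c < 1 → IsInvariantHypersurface Ω (S c)) ∧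
      ∀ c c' : ℝ, c ≠ c' → Disjoint (S c) (S c') := by
  have h01 : (⟨0, by omega⟩ : Fin n) ≠ ⟨1, by omega⟩ := by simp
  have h02 : (⟨0, by omega⟩ : Fin n) ≠ ⟨2, by omega⟩ := by simp
  have h12 : (⟨1, by omega⟩ : Fin n) ≠ ⟨2, by omega⟩ := by simp
  refine ⟨Body (fi ⟨2, by omega⟩), (goodi _).isTable, not_elli h02,
    fun c => Si ⟨0, by omega⟩ ⟨1, by omega⟩ ⟨2, by omega⟩ c,
    fun c h0 h1 => isInvariant h01 h02 h12 h0 h1, fun c c' hcc => ?_⟩
  rw [Set.disjoint_left]
  intro l hl hl'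
  have h3 : ell _ _ l = c := hl.2
  have h4 : ell _ _ l = c' := hl'.2
  exact hcc (h3.symm.trans h4)

end Pool.Agent.Run7.h189.MB
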